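import Pool.Agent.Helper78.PM.Goals

/-!
Packets PM-PMR and PM-PML: the threads as machines with one thread, and tuples of decision lists.
-/

namespace Pool.Agent.Helper79.PM

open Pool.Agent.Helper81.CC Pool.Agent.Helper51.ZP Pool.Agent.Helper78.DT
open Pool.Agent.Helper78
open scoped Classical

theorem bits_thr (A : Pool.Agent.Helper78.PM.Machine) (j : ℕ) (x : List Bool) (b : ℕ → Bool)
    (i : ℕ) (M : AO.Mem) (k : ℕ) :
    Pool.Agent.Helper78.PM.bits (fun z => A.act (j, z)) x b i M k =
      AO.bits (Pool.Agent.Helper78.PM.thr A j) x b i M k := by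
  induction k with
  | zero => rfl
  | succ k ih =>
    simp only [Pool.Agent.Helper78.PM.bits, AO.bits, ih]
    rfl

theorem run_thr (A : Pool.Agent.Helper78.PM.Machine) (j c : ℕ) (x : List Bool) (b : ℕ → Bool)
    (n : ℕ) : ∀ (i : ℕ) (M : AO.Mem),
    Pool.Agent.Helper78.PM.run (fun z => A.act (j, z)) c x b n i M =
      AO.run (Pool.Agent.Helper78.PM.thr A j) c x b n i M := by
  induction n with
  | zero => intro i M; rfl
  | succ n ih =>
    intro i M
    simp only [Pool.Agent.Helper78.PM.run, AO.run, bits_thr, ih]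
    rfl

/-- Packet PM-PMR. -/
theorem pmr : Pool.Agent.Helper78.PM.PmrStmt := by
  intro A c x b
  unfold Pool.Agent.Helper78.PM.FK Pool.Agent.Helper78.PM.results
  congr 2
  refine List.map_congr_left fun j _ => ?_
  rw [Pool.Agent.Helper83.AO.rk0, run_thr]

/-- Packet PM-PML. -/
theorem pml : Pool.Agent.Helper78.PM.PmlStmt := by
  intro A c x
  have h := fun j : Fin (A.r x) => AO.mlsS (Pool.Agent.Helper78.PM.thr A j) x c
  choose f hf hev using h
  refine ⟨f, fun v => A.out (x, List.ofFn v), hf, fun b h K t => ?_⟩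
  have h1 : (fun j : Fin (A.r x) => ev ((f j).filter (bal K t h)) b) =
      fun j : Fin (A.r x) => AO.runK (Pool.Agent.Helper78.PM.thr A j) x c K t h (cf b)
        (A.T x) 0 [] := by
    funext j
    exact hev j b h K t
  show A.out (x, List.ofFn fun j : Fin (A.r x) => ev ((f j).filter (bal K t h)) b) = _
  rw [h1]
  unfold Pool.Agent.Helper78.PM.FK
  congr 2
  apply List.ext_getElem
  · simp
  · intro i h1 h2
    simp

end Pool.Agent.Helper79.PM
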